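import Mathlib
import Pool.Agent.MP_620062_an.H46.Main

namespace Pool.Agent.Results.MP_620062_an.ZeroProduct

open MeasureTheory Pool.Agent.MP_620062_an.H46
open scoped ComplexConjugate

theorem result (m : ℕ) (f g h k u v : ℂ → ℂ) (hf : InA1 f) (hg : InA1 g) (hh : InA1 h)
    (hk : InA1 k) (hu : u = fun w => f w + conj (k w)) (hv : v = fun w => h w + conj (g w)) :
    (∀ F, InF m F → ∀ z, Integrable (fun w => v w * F w * kern m z w) (mu m) ∧
      Integrable (fun w => u w * toep m v F w * kern m z w) (mu m)) ∧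
    ∀ D : Set (ℂ → ℂ), (∀ F ∈ D, InF m F) →
      (∀ H, InF m H → ∀ ε : ℝ, 0 < ε → ∃ F ∈ D, ∫ w, ‖H w - F w‖ ^ 2 ∂(mu m) < ε) →
      (∀ F ∈ D, toep m u (toep m v F) = 0) → u = 0 ∨ v = 0 := by
  subst hu hv
  exact ⟨fun F hF z => conv m (gr_symbol hf hk) (gr_symbol hh hg) F hF z,
    fun D hD hd h0 => main m f g h k hf hg hh hk D hD hd h0⟩

end Pool.Agent.Results.MP_620062_an.ZeroProduct
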